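import Pool.Agent.LGP.Chain

namespace Pool.Agent.Results.MP_da1d0d_al.PositiveChar

open Pool.Agent.Helper85.SC IntermediateField

/-- `k` algebraically closed of characteristic `p > 0`, `n ≥ 5`, `r ≥ 1`, `i ≥ 0`. If
`n ≤ 2 r + 2 - ⌊r / 2 ^ i⌋`, or `p` divides `n` and `n ≤ 2 r + 3 - ⌊r / 2 ^ i⌋`, then the roots of
the general polynomial of degree `n` lie in `M_r^(i + 2)`. -/
theorem result {k K : Type*} [Field k] [Field K] [Algebra k K] [IsAlgClosed k] [IsAlgClosed K]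
    {p : ℕ} [Fact p.Prime] [CharP k p] {n r i : ℕ} (hn5 : 5 ≤ n) (hr : 1 ≤ r)
    (hn : n + r / 2 ^ i ≤ 2 * r + 2 ∨ (p ∣ n ∧ n + r / 2 ^ i ≤ 2 * r + 3)) {x : Fin n → K}
    (hx : AlgebraicIndependent k x) (halg : Algebra.IsAlgebraic (adjoin k (Set.range x)) K)
    {f : K} (hf : f ^ n + ∑ j : Fin n, x j * f ^ (n - 1 - (j : ℕ)) = 0) :
    f ∈ M k x r (i + 2) :=
  Pool.Agent.LGP.layers hn5 hr hn hx halg hf

end Pool.Agent.Results.MP_da1d0d_al.PositiveChar
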