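import Pool.Agent.Helper85.SC.Lower
import Pool.Agent.Helper85.SC.Upper

namespace Pool.Agent.Results.MP_da1d0d_al.SecondLayer

open Pool.Agent.Helper85.SC IntermediateField

/-- For `n >= 5` (characteristic `0`): the least `r` such that the root `f` of the general
polynomial of degree `n` lies in `M_r^2` is at least `n/2` (integer part) and at most
`n - 3`; for `r >= n - 3` the least `s` with `f` in `M_r^s` is `2`. -/
theorem result {k K : Type*} [Field k] [IsAlgClosed k] [CharZero k] [Field K] [Algebra k K]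
    {n : ℕ} (hn : 5 ≤ n) (x : Fin n → K) (hx : AlgebraicIndependent k x)
    [Algebra.IsAlgebraic (adjoin k (Set.range x)) K] [IsAlgClosed K]
    (f : K) (hf : f ^ n + ∑ i : Fin n, x i * f ^ (n - 1 - (i : ℕ)) = 0) (r : ℕ) :
    (f ∈ M k x r 2 → n / 2 ≤ r) ∧ (n - 3 ≤ r → IsLeast {s | 1 ≤ s ∧ f ∈ M k x r s} 2) := by
  obtain ⟨y, hG, i₀, rfl⟩ := exists_gen hx ‹_› hf
  have h1 : M k x r 1 = adjoin k (Set.range x) := rfl
  have h2 : M k x r 2 = next k r (adjoin k (Set.range x)) := rfl
  refine ⟨fun h => ?_, fun h => ⟨⟨by norm_num, ?_⟩, ?_⟩⟩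
  · rw [h2] at h
    exact lower hG hn h
  · rw [h2]
    exact next_mono_right (by omega) h _ (upper hG hn i₀)
  · rintro s ⟨hs1, hs⟩
    by_contra hlt
    have : s = 1 := by omega
    subst this
    rw [h1] at hs
    exact not_mem_base hG (by omega) i₀ hs

end Pool.Agent.Results.MP_da1d0d_al.SecondLayer
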