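import Pool.Agent.Helper85.SC.LeFive
import Pool.Agent.Helper85.SC6.Six

namespace Pool.Agent.Results.MP_da1d0d_al.SmallDegrees

open Pool.Agent.Helper85.SC IntermediateField

/-- The least `s` with `f` in `M_r^s` for the general polynomial of degree `n <= 6` in
characteristic `0`, for every `r >= 1`, except for `n = 6`, `r = 1`: it is `1` for `n = 1`, it is
`3` for `(n, r) = (5, 1)` and `(n, r) = (6, 2)`, and it is `2` in all the other cases. -/
theorem result {k K : Type*} [Field k] [IsAlgClosed k] [CharZero k] [Field K] [Algebra k K]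
    {n : ℕ} (hn1 : 1 ≤ n) (hn6 : n ≤ 6) (x : Fin n → K) (hx : AlgebraicIndependent k x)
    [Algebra.IsAlgebraic (adjoin k (Set.range x)) K] [IsAlgClosed K]
    (f : K) (hf : f ^ n + ∑ i : Fin n, x i * f ^ (n - 1 - (i : ℕ)) = 0)
    (r : ℕ) (hr : 1 ≤ r) (hnr : ¬(n = 6 ∧ r = 1)) :
    IsLeast {s | 1 ≤ s ∧ f ∈ M k x r s}
      (if n = 1 then 1 else if (n = 5 ∧ r = 1) ∨ (n = 6 ∧ r = 2) then 3 else 2) := by
  by_cases h6 : n = 6
  · subst h6
    have h := least_six x hx f hf r (by
      by_contra hlt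
      exact hnr ⟨rfl, by omega⟩)
    have e : (if (6 : ℕ) = 1 then 1 else if ((6 : ℕ) = 5 ∧ r = 1) ∨ ((6 : ℕ) = 6 ∧ r = 2) then 3
        else 2) = (if r = 2 then 3 else 2) := by
      simp
    rw [e]
    exact h
  · have h := least_le_five hn1 (by omega) x hx f hf r hr
    have e : (if n = 1 then 1 else if (n = 5 ∧ r = 1) ∨ (n = 6 ∧ r = 2) then 3 else 2) =
        (if n = 1 then 1 else if n = 5 ∧ r = 1 then 3 else 2) := by
      simp [h6]
    rw [e]
    exact h

end Pool.Agent.Results.MP_da1d0d_al.SmallDegrees
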