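import Pool.Agent.SQT.Final

namespace Pool.Agent.Results.MP_da1d0d_al.SquareRootBound

open Pool.Agent.Helper85.SC IntermediateField

/-- Characteristic `0`, `m >= 3`, `r >= n - m - 1`. The root `f` of the general polynomial of
degree `n` lies in `M_r^3` if `n >= m^2 + m - 1` (or `n >= m! + m - 2`), in `M_r^4` if `m >= 4`
and `n >= m^2 - m`, and in `M_r^5` if `m >= 4` and `n >= m^2 - 2 m + 3`. -/
theorem result {k K : Type*} [Field k] [IsAlgClosed k] [CharZero k] [Field K] [Algebra k K]
    {m n r : ℕ} (hm : 3 ≤ m) (hr : n - m - 1 ≤ r)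
    (x : Fin n → K) (hx : AlgebraicIndependent k x)
    [Algebra.IsAlgebraic (adjoin k (Set.range x)) K] [IsAlgClosed K]
    (f : K) (hf : f ^ n + ∑ i : Fin n, x i * f ^ (n - 1 - (i : ℕ)) = 0) :
    (m ^ 2 + m ≤ n + 1 ∨ m.factorial + m ≤ n + 2 → f ∈ M k x r 3) ∧
    (4 ≤ m → m ^ 2 ≤ n + m → f ∈ M k x r 4) ∧
    (4 ≤ m → m ^ 2 + 3 ≤ n + 2 * m → f ∈ M k x r 5) := by
  obtain ⟨y, hG, i₀, rfl⟩ := exists_gen hx ‹_› hf
  have hmm : 3 * m ≤ m * m := Nat.mul_le_mul_right _ hm
  have hsq : m ^ 2 = m * m := sq m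
  have h3 : M k x r 3 = next k r (next k r (adjoin k (Set.range x))) := rfl
  have h4 : M k x r 4 = next k r (next k r (next k r (adjoin k (Set.range x)))) := rfl
  have h5 : M k x r 5 = next k r (next k r (next k r (next k r (adjoin k (Set.range x))))) := rfl
  have step : 1 ≤ n - m - 1 → ∀ {E E' : IntermediateField k K}, E ≤ E' →
      next k (n - m - 1) E ≤ next k r E' := fun h1 E E' h =>
    (next_mono_left h).trans (next_mono_right h1 hr _)
  refine ⟨fun h => ?_, fun hm4 h => ?_, fun hm4 h => ?_⟩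
  · rw [h3]
    rcases h with h | h
    · exact step (by omega) (step (by omega) le_rfl)
        (Pool.Agent.SQT.three hG hm (by omega) i₀)
    · have h6 : 6 ≤ m.factorial := by
        calc 6 = (3).factorial := rfl
          _ ≤ m.factorial := Nat.factorial_le hm
      exact step (by omega) (step (by omega) le_rfl) (third hG hm (by omega) i₀)
  · rw [h4]
    have h7 : 4 * m ≤ m * m := Nat.mul_le_mul_right _ hm4
    exact step (by omega) (step (by omega) (step (by omega) le_rfl))
      (Pool.Agent.SQT.four hG hm4 h i₀)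
  · rw [h5]
    have h7 : 4 * m ≤ m * m := Nat.mul_le_mul_right _ hm4
    exact step (by omega) (step (by omega) (step (by omega) (step (by omega) le_rfl)))
      (Pool.Agent.SQT.five hG hm4 h i₀)

end Pool.Agent.Results.MP_da1d0d_al.SquareRootBound
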